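import Mathlib
import Pool.Agent.Helper226.Inst833

set_option autoImplicit false

open AlgebraicGeometry

universe u

namespace Pool.Agent.Results.MP_5fb40f_ag.NeitherComponentNorSmoothable

open Pool.Agent.Helper226

/-- Over every algebraically closed field `k`, the very compressed locus in the Hilbert scheme of
`33` points of affine `8`-space is not contained in the smoothable component, and its closure is
not an irreducible component. -/
theorem result (k : Type u) [Field k] [IsAlgClosed k] :
    ∃ 𝓗 : HilbertScheme k (MvPolynomial (Fin 8) k) 33,
      ¬ (𝓗.locus (IsVeryCompressed 33) ⊆ closure (𝓗.locus Ideal.IsRadical)) ∧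
      closure (𝓗.locus (IsVeryCompressed 33)) ∉ irreducibleComponents 𝓗.H := by
  refine ⟨hilb k (MvPolynomial (Fin 8) k) 33, ?_, ?_⟩
  · intro h
    apply famClosure_not_smoothable (k := k) Inst.D (by rw [Inst.card_E, Inst.card_N]; norm_num)
    refine (famClosure_subset Inst.D (IsVeryCompressed 33) fun a => ?_).trans
      (closure_minimal h isClosed_closure)
    exact isVeryCompressed_of_bounds Inst.D _ (by norm_num) (by norm_num) (by decide)
      (by rw [Inst.card_E]) (qchart_cube Inst.D a) (qchart_sq Inst.D a)
  · exact closure_not_component Inst.D Inst.T (by norm_num) (by norm_num) (by decide)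
      (by rw [Inst.card_E]) (by rw [Inst.card_N, Inst.card_sym]; norm_num)
      (by rw [Inst.card_E]; norm_num)

end Pool.Agent.Results.MP_5fb40f_ag.NeitherComponentNorSmoothable
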